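import Pool.Agent.H.MP_5e03f8_nt.Lower

/-!
Positive answer to Q1 of MP_5e03f8_nt: the Euclidean window of the prime above 2 in the ring of
integers of `ℚ(√14)` is not empty; it contains every `c` with `√5 < c ≤ 2.242`.
-/

namespace Pool.Agent.Results.MP_5e03f8_nt.WindowLower

open NumberField Pool.Agent.H.MP_5e03f8_nt

/-- Let `K = ℚ(√14)` (given as a number field generated by an algebraic integer `s` with
`s ^ 2 = 14`) and `𝔭 = (2, s)`. The Euclidean window `w(𝔭)` is not empty: it contains every real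
number `c` with `√5 < c ≤ 2.242`, so for these `c` the weighted norm `f_{𝔭,c}` is a Euclidean
function on the ring of integers of `K`. -/
theorem result (K : Type*) [Field K] [NumberField K] (s : 𝓞 K) (hs : s ^ 2 = 14)
    (hK : IntermediateField.adjoin ℚ {(s : K)} = ⊤) :
    Set.Ioc (Real.sqrt 5) 2.242 ⊆ window (Ideal.span {2, s} : Ideal (𝓞 K)) ∧
      (window (Ideal.span {2, s} : Ideal (𝓞 K))).Nonempty := by
  have h1 : Set.Ioc (Real.sqrt 5) 2.242 ⊆ window (Ideal.span {2, s} : Ideal (𝓞 K)) := by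
    rintro c ⟨hc1, hc2⟩
    have h5 : (0 : ℝ) < Real.sqrt 5 := Real.sqrt_pos.2 (by norm_num)
    exact ⟨by linarith, euclidean s hs hK hc1 hc2⟩
  refine ⟨h1, 2.242, h1 ⟨?_, le_refl _⟩⟩
  rw [Real.sqrt_lt' (by norm_num)]; norm_num

end Pool.Agent.Results.MP_5e03f8_nt.WindowLower
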