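import Pool.Agent.H.MP_5e03f8_nt.WN
import Pool.Agent.H.MP_5e03f8_nt.Upper

/-!
Negative answer to Q2 of MP_5e03f8_nt: the Euclidean window of the prime above 2 in the ring of
integers of `ℚ(√14)` is not `(√5, √7)`; it contains no `c ≥ 2.258`.
-/

namespace Pool.Agent.Results.MP_5e03f8_nt.WindowUpper

open NumberField Pool.Agent.H.MP_5e03f8_nt

theorem not_euclidean {K : Type*} [Field K] [NumberField K] (s : 𝓞 K) (hs : s ^ 2 = 14)
    (hK : IntermediateField.adjoin ℚ {(s : K)} = ⊤) (c : ℝ) (hc : 2.258 ≤ c) :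
    ¬ IsEuclideanFunction (weightedNorm (Ideal.span {2, s} : Ideal (𝓞 K)) c) := by
  intro h
  have hκ : (1.129 : ℝ) ≤ c / 2 := by linarith
  have hD : ((D : ℤ) : 𝓞 K) ≠ 0 := by
    exact_mod_cast (show D ≠ 0 by decide)
  obtain ⟨q, hq⟩ := h.exists_remainder
    (((573018579 : ℤ) : 𝓞 K) + ((1499270639011672 : ℤ) : 𝓞 K) * s) ((D : ℤ) : 𝓞 K) hD
  obtain ⟨m, n, rfl⟩ := exists_int s hs hK q
  have e1 : ((573018579 : ℤ) : 𝓞 K) + ((1499270639011672 : ℤ) : 𝓞 K) * s -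
      ((D : ℤ) : 𝓞 K) * ((m : 𝓞 K) + (n : 𝓞 K) * s) =
      ((573018579 - D * m : ℤ) : 𝓞 K) + ((1499270639011672 - D * n : ℤ) : 𝓞 K) * s := by
    push_cast; ring
  have e2 : ((D : ℤ) : 𝓞 K) = ((D : ℤ) : 𝓞 K) + ((0 : ℤ) : 𝓞 K) * s := by
    push_cast; ring
  rw [e1] at hq
  rw [e2, weightedNorm_eq s hs hK, weightedNorm_eq s hs hK] at hq
  have hl := lower_bound (c / 2) hκ (573018579 - D * m) (1499270639011672 - D * n)
    ⟨(573018579, 1499270639011672), by simp [orb], ⟨-m, by ring⟩, ⟨-n, by ring⟩⟩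
  have hodd : padicValInt 2 (D ^ 2 - 14 * 0 ^ 2) = 0 := by
    apply padicValInt.eq_zero_of_not_dvd
    decide
  rw [hodd, pow_zero, mul_one] at hq
  have hDD : |((D ^ 2 - 14 * 0 ^ 2 : ℤ) : ℝ)| = ((D ^ 2 : ℤ) : ℝ) := by
    rw [show (D ^ 2 - 14 * 0 ^ 2 : ℤ) = D ^ 2 by ring]
    exact abs_of_nonneg (by exact_mod_cast sq_nonneg D)
  rw [hDD] at hq
  exact absurd hl (not_le.2 hq)

/-- Let `K = ℚ(√14)` (given as a number field generated by an algebraic integer `s` with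
`s ^ 2 = 14`) and `𝔭 = (2, s)`. Every `c` in the Euclidean window `w(𝔭)` satisfies `c < 2.258`.
In particular `w(𝔭)` is not the interval `(√5, √7)`. -/
theorem result (K : Type*) [Field K] [NumberField K] (s : 𝓞 K) (hs : s ^ 2 = 14)
    (hK : IntermediateField.adjoin ℚ {(s : K)} = ⊤) :
    (∀ c ∈ window (Ideal.span {2, s} : Ideal (𝓞 K)), c < 2.258) ∧
      window (Ideal.span {2, s} : Ideal (𝓞 K)) ≠ Set.Ioo (Real.sqrt 5) (Real.sqrt 7) := by
  have h1 : ∀ c ∈ window (Ideal.span {2, s} : Ideal (𝓞 K)), c < 2.258 := by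
    intro c hc
    by_contra h
    push Not at h
    exact not_euclidean s hs hK c h hc.2
  refine ⟨h1, fun h => ?_⟩
  have h2 : (2.6 : ℝ) ∈ Set.Ioo (Real.sqrt 5) (Real.sqrt 7) := by
    constructor
    · rw [Real.sqrt_lt' (by norm_num)]; norm_num
    · rw [Real.lt_sqrt (by norm_num)]; norm_num
  rw [← h] at h2
  have := h1 _ h2
  norm_num at this

end Pool.Agent.Results.MP_5e03f8_nt.WindowUpper
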